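import Mathlib
import Pool.Agent.Q115.WheelFour

set_option autoImplicit false

/-!
# The VC-dimension threshold can be smaller than the blowup threshold

For the wheel with four spokes `W4` (that is, the complete tripartite graph with part sizes
`1, 2, 2`) the VC-dimension threshold is at most `499/1000` while the blowup threshold is `1/2`.
-/

namespace Pool.Agent.Results.MP_0aef5d_co.FourWheel

/-- `G` is maximal `H`-free: it has no copy of `H` as a subgraph, but adding any edge between two
distinct non-adjacent vertices creates one. -/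
def MaximalFree {W V : Type} (H : SimpleGraph W) (G : SimpleGraph V) : Prop :=
  H.Free G ∧ ∀ u v : V, u ≠ v → ¬ G.Adj u v → ¬ H.Free (G ⊔ SimpleGraph.edge u v)

/-- The VC-dimension of the family of all neighbourhoods of `G`. -/
noncomputable def VC {V : Type} (G : SimpleGraph V) : ℕ :=
  sSup {k : ℕ | ∃ S : Finset V, S.card = k ∧
    ∀ T : Finset V, T ⊆ S → ∃ v : V, ∀ x ∈ S, G.Adj v x ↔ x ∈ T}

/-- `G` is a blowup of `F`: the vertices of `G` are partitioned into nonempty classes `π ⁻¹ {x}`,
one for every vertex `x` of `F`, and `u, v` are adjacent in `G` iff `π u, π v` are adjacent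
in `F`. -/
def IsBlowup {V W : Type} (G : SimpleGraph V) (F : SimpleGraph W) : Prop :=
  ∃ π : V → W, Function.Surjective π ∧ ∀ u v : V, G.Adj u v ↔ F.Adj (π u) (π v)

open Classical in
/-- The VC-dimension threshold of `H`. -/
noncomputable def deltaVC {U : Type} (H : SimpleGraph U) : ℝ :=
  sInf {α : ℝ | 0 ≤ α ∧ ∃ C : ℕ, ∀ (V : Type) [Fintype V] (G : SimpleGraph V),
    MaximalFree H G → α * Fintype.card V ≤ (G.minDegree : ℝ) → VC G ≤ C}

open Classical in
/-- The blowup threshold of `H`. -/
noncomputable def deltaB {U : Type} (H : SimpleGraph U) : ℝ :=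
  sInf {α : ℝ | 0 ≤ α ∧ ∃ C : ℕ, ∀ (V : Type) [Fintype V] (G : SimpleGraph V),
    MaximalFree H G → α * Fintype.card V ≤ (G.minDegree : ℝ) →
    ∃ (W : Type) (_ : Fintype W) (F : SimpleGraph W), Fintype.card W ≤ C ∧ IsBlowup G F}

/-- The wheel with four spokes: the hub `0` is joined to the four-cycle `1, 2, 3, 4`. -/
def W4 : SimpleGraph (Fin 5) := Q115.WheelFour.W4

theorem vc_le {V : Type} (G : SimpleGraph V) (C : ℕ)
    (h : ∀ S : Finset V, (∀ T : Finset V, T ⊆ S → ∃ v : V, ∀ x ∈ S, G.Adj v x ↔ x ∈ T) →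
      S.card ≤ C) : VC G ≤ C := by
  apply csSup_le'
  rintro k ⟨S, hS, hT⟩
  rw [← hS]
  exact h S hT

open Classical in
theorem deg_of_min {V : Type} [Fintype V] (G : SimpleGraph V) (α : ℝ)
    (h : α * Fintype.card V ≤ (G.minDegree : ℝ)) (v : V) :
    α * Fintype.card V ≤ (G.degree v : ℝ) :=
  h.trans (by exact_mod_cast G.minDegree_le_degree v)

theorem deltaVC_le : deltaVC W4 ≤ 499 / 1000 := by
  classical
  apply csInf_le ⟨0, fun α hα => hα.1⟩
  refine ⟨by norm_num, 10000000, ?_⟩
  intro V _ G hG hdeg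
  by_cases hn : 10000000 ≤ Fintype.card V
  · obtain ⟨c, hc⟩ := Q115.WheelFour.structure_thm G hG.1 hn (by
      intro v
      have h1 := deg_of_min G _ hdeg v
      have h2 : (499 * Fintype.card V : ℝ) ≤ 1000 * G.degree v := by linarith
      exact_mod_cast h2)
    refine (vc_le G 2 ?_).trans (by norm_num)
    intro S hS
    exact Q115.WheelFour.shatter_le G c hc
      (fun u v huv => Q115.WheelFour.cross_adj G hG.2 c hc huv) S hS
  · push Not at hn
    apply vc_le G
    intro S _
    exact (Finset.card_le_univ S).trans hn.le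

theorem maximal_K (m : ℕ) : MaximalFree W4 (Q115.WheelFour.K m) :=
  ⟨Q115.WheelFour.K_free m, fun u v huv hadj => Q115.WheelFour.K_maximal m u v huv hadj⟩

open Classical in
theorem minDegree_K (m : ℕ) (hm : 1 ≤ m) :
    Fintype.card (Bool × Fin m × Bool) < 2 * (Q115.WheelFour.K m).minDegree := by
  have : Nonempty (Bool × Fin m × Bool) := ⟨(true, ⟨0, hm⟩, true)⟩
  obtain ⟨v, hv⟩ := (Q115.WheelFour.K m).exists_minimal_degree_vertex
  rw [hv]
  exact Q115.WheelFour.K_degree m v

theorem blowup_K (m : ℕ) {W : Type} [Fintype W] (F : SimpleGraph W)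
    (h : IsBlowup (Q115.WheelFour.K m) F) : 4 * m ≤ Fintype.card W := by
  obtain ⟨π, _, hπ⟩ := h
  rw [← Q115.WheelFour.card_K m]
  apply Fintype.card_le_of_injective π
  intro u v huv
  apply Q115.WheelFour.K_twin_free m
  intro w
  rw [hπ, hπ, huv]

theorem deltaB_eq : deltaB W4 = 1 / 2 := by
  classical
  have hmem : ∀ α : ℝ, 1 / 2 < α → α ∈ {α : ℝ | 0 ≤ α ∧ ∃ C : ℕ, ∀ (V : Type) [Fintype V]
      (G : SimpleGraph V), MaximalFree W4 G → α * Fintype.card V ≤ (G.minDegree : ℝ) →
      ∃ (W : Type) (_ : Fintype W) (F : SimpleGraph W), Fintype.card W ≤ C ∧ IsBlowup G F} := by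
    intro α hα
    obtain ⟨N, hN⟩ := Q115.WheelFour.bounded_order α hα
    refine ⟨by linarith, N, ?_⟩
    intro V _ G hG hdeg
    exact ⟨V, inferInstance, G, hN V G hG.1 (deg_of_min G α hdeg), id, Function.surjective_id,
      fun u v => Iff.rfl⟩
  apply le_antisymm
  · apply le_of_forall_pos_le_add
    intro ε hε
    exact csInf_le ⟨0, fun α hα => hα.1⟩ (hmem (1 / 2 + ε) (by linarith))
  · apply le_csInf ⟨1, hmem 1 (by norm_num)⟩
    rintro α ⟨_, C, hC⟩
    by_contra hlt
    push Not at hlt
    obtain ⟨W, _, F, hW, hF⟩ := hC _ (Q115.WheelFour.K (C + 1)) (maximal_K (C + 1)) (by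
      have h1 := minDegree_K (C + 1) (by omega)
      have h2 : (Fintype.card (Bool × Fin (C + 1) × Bool) : ℝ) <
          2 * ((Q115.WheelFour.K (C + 1)).minDegree : ℝ) := by exact_mod_cast h1
      have h3 : (0 : ℝ) ≤ Fintype.card (Bool × Fin (C + 1) × Bool) := Nat.cast_nonneg _
      nlinarith)
    have := blowup_K (C + 1) F hF
    omega

/-- For the wheel with four spokes the VC-dimension threshold is at most `499/1000` and the blowup
threshold equals `1/2`; in particular the two thresholds differ. -/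
theorem result : deltaVC W4 ≤ 499 / 1000 ∧ deltaB W4 = 1 / 2 :=
  ⟨deltaVC_le, deltaB_eq⟩

end Pool.Agent.Results.MP_0aef5d_co.FourWheel
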